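import Mathlib

/-!
# LT, A3: the choice of the parameters
-/

set_option autoImplicit false

namespace Pool.Agent.Helper3.LT

open Filter

private lemma ev_pow {s t c : ℝ} (hst : s < t) (hc : 0 < c) :
    ∀ᶠ n : ℕ in atTop, 2 * (n : ℝ) ^ s ≤ c * (n : ℝ) ^ t := by
  have h1 : Tendsto (fun n : ℕ => (n : ℝ) ^ (t - s)) atTop atTop :=
    (tendsto_rpow_atTop (sub_pos.2 hst)).comp tendsto_natCast_atTop_atTop
  filter_upwards [h1.eventually_ge_atTop (2 / c), eventually_gt_atTop 0] with n hn hn0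
  have hn' : (0 : ℝ) < n := Nat.cast_pos.2 hn0
  have h2 : (n : ℝ) ^ t = (n : ℝ) ^ (t - s) * (n : ℝ) ^ s := by
    rw [← Real.rpow_add hn', sub_add_cancel]
  rw [h2, ← mul_assoc]
  refine mul_le_mul_of_nonneg_right ?_ (Real.rpow_nonneg hn'.le _)
  rw [div_le_iff₀ hc] at hn
  linarith

private lemma ev_log {s K : ℝ} (hs : 1 < s) (hK : 0 ≤ K) (g : ℕ) :
    ∀ᶠ n : ℕ in atTop, K * n * Real.log (2 * g * n + 2) ≤ (n : ℝ) ^ s := by
  set ε : ℝ := (s - 1) / 2 with hε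
  have hε0 : 0 < ε := by rw [hε]; linarith
  have h1 : Tendsto (fun n : ℕ => (n : ℝ) ^ ε) atTop atTop :=
    (tendsto_rpow_atTop hε0).comp tendsto_natCast_atTop_atTop
  filter_upwards [h1.eventually_ge_atTop (K * (2 * g + 1) ^ ε / ε), eventually_ge_atTop 2]
    with n hn hn2
  have hn2' : (2 : ℝ) ≤ n := by exact_mod_cast hn2
  have hn' : (0 : ℝ) < n := by linarith
  have hg : (0 : ℝ) ≤ g := Nat.cast_nonneg g
  have h2 : Real.log (2 * g * n + 2) ≤ (2 * g * n + 2) ^ ε / ε := by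
    refine Real.log_le_rpow_div ?_ hε0
    positivity
  have h3 : ((2 * g * n + 2 : ℝ)) ^ ε ≤ (2 * g + 1) ^ ε * (n : ℝ) ^ ε := by
    rw [← Real.mul_rpow (by positivity) hn'.le]
    refine Real.rpow_le_rpow (by positivity) ?_ hε0.le
    linarith
  have h4 : (n : ℝ) ^ s = n * ((n : ℝ) ^ ε * (n : ℝ) ^ ε) := by
    rw [← Real.rpow_add hn']
    nth_rewrite 2 [← Real.rpow_one (n : ℝ)]
    rw [← Real.rpow_add hn', hε]
    congr 1
    ring
  rw [h4]
  have h5 : K * Real.log (2 * g * n + 2) ≤ (n : ℝ) ^ ε * (n : ℝ) ^ ε := by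
    calc K * Real.log (2 * g * n + 2) ≤ K * ((2 * g + 1) ^ ε * (n : ℝ) ^ ε / ε) := by
          refine mul_le_mul_of_nonneg_left (h2.trans ?_) hK
          exact div_le_div_of_nonneg_right h3 hε0.le
      _ = (K * (2 * g + 1) ^ ε / ε) * (n : ℝ) ^ ε := by ring
      _ ≤ (n : ℝ) ^ ε * (n : ℝ) ^ ε :=
          mul_le_mul_of_nonneg_right hn (Real.rpow_nonneg hn'.le _)
  calc K * n * Real.log (2 * g * n + 2) = n * (K * Real.log (2 * g * n + 2)) := by ring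
    _ ≤ n * ((n : ℝ) ^ ε * (n : ℝ) ^ ε) := mul_le_mul_of_nonneg_left h5 hn'.le

theorem params (g r : ℕ) (h : 5 * r + 4 < g) :
    ∃ κ : ℝ, 3 < κ ∧ ∀ CB CZ CP S0 : ℝ, 1 ≤ CB → 1 ≤ CZ → 1 ≤ CP →
      ∃ (L T0 : ℕ) (U S : ℝ), 1 ≤ L ∧ 1 ≤ T0 ∧ CZ * (L : ℝ) ^ (2 * g) < (T0 : ℝ) ^ (g + r) ∧
        L ≤ 2 * g * T0 ∧ ((2 * g * T0 : ℕ) : ℝ) ≤ U ∧ (L : ℝ) ≤ U ∧
        CB * (L : ℝ) ^ g * U ^ (r + 1) ≤ (L : ℝ) ^ (2 * g) * ((2 * g * T0 : ℕ) : ℝ) ∧
        S0 ≤ S ∧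
        CP * ((2 * g * T0 : ℕ) : ℝ) * Real.log (((2 * g * T0 : ℕ) : ℝ) + 2) ≤ S ∧
        CP * ((2 * g * T0 : ℕ) : ℝ) ≤ S ∧
        (((2 * g * T0 + 1) ^ (g + r) : ℕ) : ℝ) ≤ Real.exp S ∧
        CP * ((2 * g * T0 : ℕ) : ℝ) * Real.log (((2 * g * T0 : ℕ) : ℝ) + 2) - U ≤ -S ^ κ := by
  have hgr : 5 * (r : ℝ) + 4 < g := by exact_mod_cast h
  have hr0 : (0 : ℝ) ≤ r := Nat.cast_nonneg r
  have hg0 : (0 : ℝ) < g := by linarith
  have hg1 : (1 : ℝ) ≤ g := by linarith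
  set E : ℝ := (((g : ℝ) + r) / 2 + 1) / (r + 1) with hE
  have hE3 : 3 < E := by
    rw [hE, lt_div_iff₀ (by linarith)]
    linarith
  refine ⟨(3 + E) / 2, by linarith, ?_⟩
  intro CB CZ CP S0 hCB hCZ hCP
  set κ : ℝ := (3 + E) / 2 with hκ
  have hκ3 : 3 < κ := by rw [hκ]; linarith
  have hκE : κ < E := by rw [hκ]; linarith
  have hκ0 : 0 < κ := by linarith
  set s : ℝ := (1 + E / κ) / 2 with hs
  have hs1 : 1 < s := by
    have h1 : 1 < E / κ := (one_lt_div hκ0).2 hκE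
    rw [hs]
    linarith
  have hsκ : s * κ < E := by
    have h1 : s * κ = (κ + E) / 2 := by
      rw [hs]
      field_simp
    rw [h1]
    linarith
  -- the constants
  set a : ℝ := CZ⁻¹ ^ (((2 * g : ℕ) : ℝ)⁻¹) with ha
  have hCZi : 0 < CZ⁻¹ := inv_pos.2 (by linarith)
  have ha0 : 0 < a := Real.rpow_pos_of_pos hCZi _
  set α : ℝ := ((g : ℝ) + r) / (2 * g) with hα
  have hα0 : 0 < α := by rw [hα]; positivity
  set c : ℝ := (a / 4) ^ g * (2 * g) / CB with hc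
  have hc0 : 0 < c := by rw [hc]; positivity
  set c' : ℝ := c ^ (((r + 1 : ℕ) : ℝ)⁻¹) with hc'
  have hc'0 : 0 < c' := Real.rpow_pos_of_pos hc0 _
  have hK : 0 ≤ 2 * CP * (2 * g) + (g + r) := by positivity
  have e1 : Tendsto (fun n : ℕ => a * (n : ℝ) ^ α) atTop atTop :=
    ((tendsto_rpow_atTop hα0).comp tendsto_natCast_atTop_atTop).const_mul_atTop ha0
  have e2 : Tendsto (fun n : ℕ => (n : ℝ) ^ s) atTop atTop :=
    (tendsto_rpow_atTop (by linarith)).comp tendsto_natCast_atTop_atTop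
  obtain ⟨n, h1, h2, h3, h4, h5⟩ := ((e1.eventually_ge_atTop 4).and
    ((e2.eventually_ge_atTop S0).and ((ev_log hs1 hK g).and
    ((ev_pow hsκ hc'0).and (eventually_ge_atTop 1))))).exists
  have hn1 : (1 : ℝ) ≤ n := by exact_mod_cast h5
  have hn0 : (0 : ℝ) < n := by linarith
  set A : ℝ := a * (n : ℝ) ^ α with hA
  set L : ℕ := ⌊A / 2⌋₊ with hL
  have hLle : (L : ℝ) ≤ A / 2 := Nat.floor_le (by linarith)
  have hLge : A / 4 ≤ (L : ℝ) := by
    have h6 := Nat.lt_floor_add_one (A / 2)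
    rw [← hL] at h6
    linarith
  have hL1 : 1 ≤ L := by
    have h6 : (1 : ℝ) ≤ L := by linarith
    exact_mod_cast h6
  have hA2g : CZ * A ^ (2 * g) = (n : ℝ) ^ (g + r) := by
    have h2g : (2 * g : ℕ) ≠ 0 := by omega
    rw [hA, mul_pow, ha, Real.rpow_inv_natCast_pow hCZi.le h2g, ← Real.rpow_natCast,
      ← Real.rpow_mul hn0.le, ← mul_assoc, mul_inv_cancel₀ (by linarith), one_mul,
      ← Real.rpow_natCast]
    congr 1
    rw [hα]
    push_cast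
    field_simp
  have hLA : (L : ℝ) < A := by linarith
  have hmain : CZ * (L : ℝ) ^ (2 * g) < (n : ℝ) ^ (g + r) := by
    rw [← hA2g]
    refine mul_lt_mul_of_pos_left ?_ (by linarith)
    exact pow_lt_pow_left₀ hLA (Nat.cast_nonneg L) (by omega)
  have hLn : L ≤ n := by
    by_contra hcon
    push Not at hcon
    have h6 : (n : ℝ) ≤ L := by exact_mod_cast hcon.le
    have h7 : (n : ℝ) ^ (g + r) ≤ (n : ℝ) ^ (2 * g) := pow_le_pow_right₀ hn1 (by omega)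
    have h8 : (n : ℝ) ^ (2 * g) ≤ (L : ℝ) ^ (2 * g) := pow_le_pow_left₀ hn0.le h6 _
    have h9 : (L : ℝ) ^ (2 * g) ≤ CZ * (L : ℝ) ^ (2 * g) :=
      le_mul_of_one_le_left (by positivity) hCZ
    linarith
  set T : ℝ := 2 * g * n with hT
  have hTc : ((2 * g * n : ℕ) : ℝ) = T := by push_cast; rfl
  have hT0 : 0 < T := by rw [hT]; positivity
  have hnT : (n : ℝ) ≤ T := by
    rw [hT]
    exact le_mul_of_one_le_left hn0.le (by linarith)
  set y : ℝ := (L : ℝ) ^ g * T / CB with hy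
  have hy0 : 0 ≤ y := by rw [hy]; positivity
  set U : ℝ := y ^ (((r + 1 : ℕ) : ℝ)⁻¹) with hU
  have hUpow : U ^ (r + 1) = y := Real.rpow_inv_natCast_pow hy0 (by omega)
  have hlow : c' * (n : ℝ) ^ E ≤ U := by
    have h6 : c * (n : ℝ) ^ (((g : ℝ) + r) / 2 + 1) ≤ y := by
      have h7 : (A / 4) ^ g ≤ (L : ℝ) ^ g := pow_le_pow_left₀ (by linarith) hLge g
      have h8 : (A / 4) ^ g = (a / 4) ^ g * (n : ℝ) ^ (((g : ℝ) + r) / 2) := by
        rw [hA, mul_div_right_comm, mul_pow, ← Real.rpow_natCast ((n : ℝ) ^ α),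
          ← Real.rpow_mul hn0.le]
        congr 2
        rw [hα]
        field_simp
      rw [h8] at h7
      rw [Real.rpow_add hn0, Real.rpow_one, hc, hy, hT]
      calc (a / 4) ^ g * (2 * g) / CB * ((n : ℝ) ^ (((g : ℝ) + r) / 2) * n) =
          ((a / 4) ^ g * (n : ℝ) ^ (((g : ℝ) + r) / 2)) * (2 * g * n) / CB := by ring
        _ ≤ (L : ℝ) ^ g * (2 * g * n) / CB := by
          refine div_le_div_of_nonneg_right ?_ (by linarith)
          exact mul_le_mul_of_nonneg_right h7 (by positivity)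
    have h9 : (c * (n : ℝ) ^ (((g : ℝ) + r) / 2 + 1)) ^ (((r + 1 : ℕ) : ℝ)⁻¹) ≤ U :=
      Real.rpow_le_rpow (by positivity) h6 (by positivity)
    rw [Real.mul_rpow hc0.le (Real.rpow_nonneg hn0.le _), ← hc', ← Real.rpow_mul hn0.le] at h9
    have h10 : (((g : ℝ) + r) / 2 + 1) * ((r + 1 : ℕ) : ℝ)⁻¹ = E := by
      rw [hE, div_eq_mul_inv _ ((r : ℝ) + 1)]
      push_cast
      rfl
    rwa [h10] at h9
  have hS1 : (n : ℝ) ^ s ≤ (n : ℝ) ^ (s * κ) := by
    refine Real.rpow_le_rpow_of_exponent_le hn1 ?_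
    exact le_mul_of_one_le_right (by linarith) (by linarith)
  have hlog : 1 / 2 ≤ Real.log (T + 2) := by
    have h6 : Real.log 2 ≤ Real.log (T + 2) := Real.log_le_log (by norm_num) (by linarith)
    have := Real.log_two_gt_d9
    linarith
  have hlog0 : 0 ≤ Real.log (T + 2) := by linarith
  have h3' : (2 * CP * (2 * g) + (g + r)) * n * Real.log (T + 2) ≤ (n : ℝ) ^ s := h3
  have hCP0 : 0 < CP := by linarith
  have hb1 : CP * T * Real.log (T + 2) ≤ (n : ℝ) ^ s := by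
    refine le_trans ?_ h3'
    refine mul_le_mul_of_nonneg_right ?_ hlog0
    rw [hT]
    have h6 : 0 ≤ CP * g * n := by positivity
    have h7 : 0 ≤ ((g : ℝ) + r) * n := by positivity
    linarith
  have hb2 : CP * T ≤ (n : ℝ) ^ s := by
    refine le_trans ?_ h3'
    have h6 : CP * T = (2 * CP * (2 * g)) * n * (1 / 2) := by rw [hT]; ring
    rw [h6]
    refine mul_le_mul ?_ hlog (by norm_num) (by positivity)
    refine mul_le_mul_of_nonneg_right ?_ hn0.le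
    linarith
  have hb3 : ((g : ℝ) + r) * Real.log (T + 1) ≤ (n : ℝ) ^ s := by
    refine le_trans ?_ h3'
    have h6 : Real.log (T + 1) ≤ Real.log (T + 2) := Real.log_le_log (by linarith) (by linarith)
    refine mul_le_mul ?_ h6 (Real.log_nonneg (by linarith)) (by positivity)
    have h7 : ((g : ℝ) + r) * 1 ≤ ((g : ℝ) + r) * n :=
      mul_le_mul_of_nonneg_left hn1 (by positivity)
    have h8 : 0 ≤ 2 * CP * (2 * g) * n := by positivity
    linarith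
  have hSU : 2 * (n : ℝ) ^ (s * κ) ≤ U := h4.trans hlow
  have hSn : 0 ≤ (n : ℝ) ^ s := Real.rpow_nonneg hn0.le _
  have hTS : T ≤ (n : ℝ) ^ s := le_trans (le_mul_of_one_le_left hT0.le hCP) hb2
  have hTU : T ≤ U := by linarith
  refine ⟨L, n, U, (n : ℝ) ^ s, hL1, h5, hmain, ?_, ?_, ?_, ?_, h2, ?_, ?_, ?_, ?_⟩
  · calc L ≤ n := hLn
      _ ≤ 2 * g * n := Nat.le_mul_of_pos_left n (by omega)
  · rw [hTc]
    exact hTU
  · have h6 : (L : ℝ) ≤ n := by exact_mod_cast hLn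
    linarith
  · rw [hTc, hUpow, hy]
    have h6 : CB * (L : ℝ) ^ g * ((L : ℝ) ^ g * T / CB) = (L : ℝ) ^ (2 * g) * T := by
      rw [two_mul, pow_add]
      field_simp
    rw [h6]
  · rw [hTc]
    exact hb1
  · rw [hTc]
    exact hb2
  · have h6 : (((2 * g * n + 1) ^ (g + r) : ℕ) : ℝ) = (T + 1) ^ (g + r) := by
      rw [Nat.cast_pow, Nat.cast_add, hTc, Nat.cast_one]
    rw [h6, ← Real.exp_log (show (0 : ℝ) < T + 1 by linarith), ← Real.exp_nat_mul,
      Real.exp_le_exp]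
    push_cast
    exact hb3
  · rw [hTc, ← Real.rpow_mul hn0.le]
    linarith

end Pool.Agent.Helper3.LT
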